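import Pool.Agent.Helper29.CPB.Idem

/-!
Linear algebra for the module Trace: a (nonunital) `ℚ`-algebra of operators with rational traces
contains its unit `I` as soon as every idempotent `E ≠ I` in it admits an orthogonal element with
nonzero trace.
-/

namespace Pool.Agent.Helper90.MAD

open Polynomial Module Pool.Agent.Helper29.CPB

variable {F V : Type*} [Field F] [CharZero F] [AddCommGroup V] [Module F V] [FiniteDimensional F V]

omit [FiniteDimensional F V] in
theorem aeval_mul_mem {T : Set (Module.End F V)}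
    (hadd : ∀ x ∈ T, ∀ y ∈ T, x + y ∈ T) (hmul : ∀ x ∈ T, ∀ y ∈ T, x * y ∈ T)
    (hsmul : ∀ (q : ℚ), ∀ x ∈ T, (q : F) • x ∈ T) {x : Module.End F V} (hx : x ∈ T)
    (p : ℚ[X]) : aeval x (p.map (algebraMap ℚ F)) * x ∈ T := by
  have hpow : ∀ n : ℕ, x ^ (n + 1) ∈ T := by
    intro n
    induction n with
    | zero => simpa using hx
    | succ n ih => rw [pow_succ]; exact hmul _ ih _ hx
  induction p using Polynomial.induction_on' with
  | add p q hp hq =>
    rw [Polynomial.map_add, map_add, add_mul]
    exact hadd _ hp _ hq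
  | monomial n a =>
    rw [Polynomial.map_monomial, aeval_monomial, mul_assoc, ← pow_succ, ← Algebra.smul_def]
    exact hsmul a _ (hpow n)

theorem unit_mem_of_trace {T : Set (Module.End F V)} (h0 : 0 ∈ T)
    (hadd : ∀ x ∈ T, ∀ y ∈ T, x + y ∈ T) (hmul : ∀ x ∈ T, ∀ y ∈ T, x * y ∈ T)
    (hsmul : ∀ (q : ℚ), ∀ x ∈ T, (q : F) • x ∈ T)
    (htr : ∀ x ∈ T, ∃ q : ℚ, LinearMap.trace F V x = (q : F)) (I : Module.End F V)
    (hx : ∀ E ∈ T, E * E = E → E ≠ I →
      ∃ x ∈ T, E * x = 0 ∧ x * E = 0 ∧ LinearMap.trace F V x ≠ 0) : I ∈ T := by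
  by_contra hI
  have hpow : ∀ x ∈ T, ∀ n : ℕ, x ^ (n + 1) ∈ T := by
    intro x hx n
    induction n with
    | zero => simpa using hx
    | succ n ih => rw [pow_succ]; exact hmul _ ih _ hx
  have key : ∀ k : ℕ, ∃ E ∈ T, E * E = E ∧ k ≤ finrank F (LinearMap.range E) := by
    intro k
    induction k with
    | zero => exact ⟨0, h0, by simp, Nat.zero_le _⟩
    | succ k ih =>
      obtain ⟨E, hE, hEE, hk⟩ := ih
      obtain ⟨x, hxT, h1, h2, h3⟩ := hx E hE hEE (by rintro rfl; exact hI hE)
      have hnil : ¬ IsNilpotent x := by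
        intro hn
        apply h3
        have := LinearMap.isNilpotent_trace_of_isNilpotent hn
        exact this.eq_zero
      obtain ⟨p, hp, hp0⟩ := exists_idem x (fun n hn => by
        obtain ⟨m, rfl⟩ := Nat.exists_eq_add_of_le' hn
        exact htr _ (hpow x hxT m)) hnil
      set e := aeval x (p.map (algebraMap ℚ F)) * x with he
      have heT : e ∈ T := aeval_mul_mem hadd hmul hsmul hxT p
      have hcomm : aeval x (p.map (algebraMap ℚ F)) * x = x * aeval x (p.map (algebraMap ℚ F)) := by
        have h4 : aeval x (p.map (algebraMap ℚ F) * X) = aeval x (X * p.map (algebraMap ℚ F)) := by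
          rw [mul_comm]
        simpa using h4
      have heE : e * E = 0 := by rw [he, mul_assoc, h2, mul_zero]
      have hEe : E * e = 0 := by rw [he, hcomm, ← mul_assoc, h1, zero_mul]
      have hs : (E + e) * (E + e) = E + e := by
        rw [add_mul, mul_add, mul_add, hEE, heE, hEe, hp]
        simp
      refine ⟨E + e, hadd _ hE _ heT, hs, ?_⟩
      have h5 : ((finrank F (LinearMap.range (E + e)) : ℕ) : F)
          = ((finrank F (LinearMap.range E) + finrank F (LinearMap.range e) : ℕ) : F) := by
        rw [← trace_idem _ hs, map_add, trace_idem E hEE, trace_idem e hp]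
        push_cast
        rfl
      have h6 := Nat.cast_injective (R := F) h5
      have h7 : finrank F (LinearMap.range e) ≠ 0 := by
        intro h8
        rw [Submodule.finrank_eq_zero] at h8
        exact hp0 (LinearMap.range_eq_bot.mp h8)
      omega
  obtain ⟨E, -, -, h⟩ := key (finrank F V + 1)
  have := Submodule.finrank_le (LinearMap.range E)
  omega

end Pool.Agent.Helper90.MAD
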