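import Pool.Agent.Helper58.MAD.Basic
import Pool.Agent.Helper90.MAD.TraceB

/-!
The trace of `L' g'` for the module Trace.
-/

open CategoryTheory MonoidalCategory Limits TensorProduct
open Pool.Agent.Helper15.Murre

universe w v u

set_option linter.unusedSectionVars false

namespace Pool.Agent.Helper90.MAD

open Pool.Agent.Helper58.MAD

variable {C : Type u} [Category.{v} C] [Preadditive C] [Linear ℚ C]
  [MonoidalCategory C] [SymmetricCategory C] [MonoidalPreadditive C] [MonoidalLinear ℚ C]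
  [RigidCategory C] {F : Type w} [Field F] {W : MotivicHomology C F}

/-- the field of coefficients of a Weil homology of motives with rational coefficients has
characteristic zero -/
theorem charZero (W : MotivicHomology C F) : CharZero F := by
  rw [← CharP.charP_zero_iff_charZero]
  have hadd := W.additive
  obtain ⟨p, hp⟩ := CharP.exists F
  by_cases hp0 : p = 0
  · rwa [hp0] at hp
  exfalso
  have h1 : ((p : ℕ) • ((p : ℚ)⁻¹ • 𝟙 (W.T 0)) : W.T 0 ⟶ W.T 0) = 𝟙 _ := by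
    rw [← Nat.cast_smul_eq_nsmul ℚ, smul_smul, mul_inv_cancel₀ (by exact_mod_cast hp0), one_smul]
  have h2 := congrArg (fun t => W.H.map t) h1
  simp only [CategoryTheory.Functor.map_id, Functor.map_nsmul] at h2
  have h3 : Subsingleton (W.H.obj (W.T 0)) := by
    refine ⟨fun a b => ?_⟩
    have h4 : ∀ a : W.H.obj (W.T 0), a = 0 := by
      intro a
      have h5 := congrArg (fun t => t.hom a) h2
      have h6 : ((p • W.H.map ((p : ℚ)⁻¹ • 𝟙 (W.T 0)) : W.H.obj (W.T 0) ⟶ W.H.obj (W.T 0))).hom a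
          = (p : F) • ((W.H.map ((p : ℚ)⁻¹ • 𝟙 (W.T 0))).hom a) := by
        rw [Nat.cast_smul_eq_nsmul]
        rfl
      have h7 : (p : F) = 0 := CharP.cast_eq_zero F p
      rw [h7, zero_smul] at h6
      have h8 : a = ((p • W.H.map ((p : ℚ)⁻¹ • 𝟙 (W.T 0)) : W.H.obj (W.T 0) ⟶ W.H.obj (W.T 0))).hom a := by
        exact h5.symm
      rw [h8, h6]
    rw [h4 a, h4 b]
  have h5 := W.tateRank 0
  rw [Module.finrank_zero_of_subsingleton] at h5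
  omega

theorem cross_ne_zero {M N : C} {x : W.H.obj M} {y : W.H.obj N} (hx : x ≠ 0) (hy : y ≠ 0) :
    W.cross x y ≠ 0 := by
  let _ := W.monoidal
  intro h
  have h1 : (x ⊗ₜ[F] y : (W.H.obj M : Type w) ⊗[F] (W.H.obj N : Type w)) = 0 := by
    have h2 : (Functor.OplaxMonoidal.δ W.H M N).hom (W.cross x y) = x ⊗ₜ[F] y := by
      have h3 := congrArg (fun t => t.hom (x ⊗ₜ[F] y)) (Functor.Monoidal.μ_δ W.H M N)
      exact h3
    rw [← h2, h, map_zero]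
  have h2 : ∃ φ : Module.Dual F (W.H.obj M), φ x ≠ 0 := by
    by_contra h2
    push Not at h2
    exact hx ((Module.forall_dual_apply_eq_zero_iff F x).1 h2)
  have h3 : ∃ φ : Module.Dual F (W.H.obj N), φ y ≠ 0 := by
    by_contra h3
    push Not at h3
    exact hy ((Module.forall_dual_apply_eq_zero_iff F y).1 h3)
  obtain ⟨φ, hφ⟩ := h2
  obtain ⟨ψ, hψ⟩ := h3
  have h4 := congrArg (TensorProduct.map φ ψ) h1
  rw [TensorProduct.map_tmul, map_zero] at h4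
  have h5 := congrArg (TensorProduct.lid F F) h4
  rw [TensorProduct.lid_tmul, map_zero, smul_eq_mul] at h5
  exact mul_ne_zero hφ hψ h5

theorem lin_ext {X : C} {V : Type*} [AddCommGroup V] [Module F V] {f g : W.H.obj X →ₗ[F] V}
    (h : ∀ j, ∀ x ∈ W.gr X j, f x = g x) : f = g := by
  apply LinearMap.ext
  intro x
  induction x using W.induction with
  | h1 j x hx => exact h j x hx
  | h2 x y hx hy => rw [map_add, map_add, hx, hy]

section trace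

variable {N : C} {n : ℤ} {L : N ⟶ N ⊗ W.T 1}

variable (W) in
/-- `(N(1)) ⊗ N ⟶ (N ⊗ N)(1)` -/
noncomputable def shuf (N : C) : (N ⊗ W.T 1) ⊗ N ⟶ (N ⊗ N) ⊗ W.T 1 :=
  (α_ N (W.T 1) N).hom ≫ (N ◁ (β_ (W.T 1) N).hom) ≫ (α_ N N (W.T 1)).inv

theorem squareL_eq (L : N ⟶ N ⊗ W.T 1) :
    squareL W L = (L ▷ N) ≫ shuf W N + (N ◁ L) ≫ (α_ N N (W.T 1)).inv := rfl

theorem shuf_nat (f g : N ⟶ N) :
    shuf W N ≫ ((f ⊗ₘ g) ▷ W.T 1) = ((f ▷ W.T 1) ⊗ₘ g) ≫ shuf W N := by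
  unfold shuf
  rw [← MonoidalCategory.tensorHom_id, ← MonoidalCategory.tensorHom_id]
  simp only [Category.assoc]
  rw [← MonoidalCategory.associator_inv_naturality, MonoidalCategory.associator_naturality_assoc]
  congr 1
  simp only [← Category.assoc]
  congr 1
  rw [← MonoidalCategory.id_tensorHom, MonoidalCategory.tensorHom_comp_tensorHom,
    MonoidalCategory.tensorHom_comp_tensorHom, Category.id_comp, Category.comp_id,
    BraidedCategory.braiding_naturality]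

theorem assoc_nat (f g : N ⟶ N) :
    (α_ N N (W.T 1)).inv ≫ ((f ⊗ₘ g) ▷ W.T 1) = (f ⊗ₘ (g ▷ W.T 1)) ≫ (α_ N N (W.T 1)).inv := by
  rw [← MonoidalCategory.tensorHom_id, ← MonoidalCategory.tensorHom_id,
    MonoidalCategory.associator_inv_naturality]

/-- the Lefschetz operator of the square on a cross product -/
theorem squareL_cross (x y : W.H.obj N) :
    (W.H.map (squareL W L)).hom (W.cross x y) =
      (W.H.map (shuf W N)).hom (W.cross ((W.H.map L).hom x) y) +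
      (W.H.map (α_ N N (W.T 1)).inv).hom (W.cross x ((W.H.map L).hom y)) := by
  rw [squareL_eq, W.map_add_apply, W.map_comp_apply, W.map_comp_apply, W.map_whiskerRight_cross,
    W.map_whiskerLeft_cross]

theorem squareL_proj_cross (R : N ⟶ N) (x y : W.H.obj N) :
    (W.H.map ((R ⊗ₘ R) ▷ W.T 1)).hom ((W.H.map (squareL W L)).hom (W.cross x y)) =
      (W.H.map (shuf W N)).hom
        (W.cross ((W.H.map (R ▷ W.T 1)).hom ((W.H.map L).hom x)) ((W.H.map R).hom y)) +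
      (W.H.map (α_ N N (W.T 1)).inv).hom
        (W.cross ((W.H.map R).hom x) ((W.H.map (R ▷ W.T 1)).hom ((W.H.map L).hom y))) := by
  rw [squareL_cross, map_add, ← W.map_comp_apply, ← W.map_comp_apply, shuf_nat, assoc_nat,
    W.map_comp_apply, W.map_comp_apply, W.map_tensorHom_cross, W.map_tensorHom_cross]

/-- the hypotheses on the projector `R` (homologically idempotent, supported on the degrees
`n - 1` and `n + 1`, commuting with `L` on `H_(n+1)`) -/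
structure IsBlock (W : MotivicHomology C F) {N : C} (n : ℤ) (L : N ⟶ N ⊗ W.T 1) (R : N ⟶ N) :
    Prop where
  idem : ∀ x, (W.H.map R).hom ((W.H.map R).hom x) = (W.H.map R).hom x
  zero : ∀ j, j ≠ n - 1 → j ≠ n + 1 → ∀ x ∈ W.gr N j, (W.H.map R).hom x = 0
  comm : ∀ x ∈ W.gr N (n + 1), (W.H.map (R ▷ W.T 1)).hom ((W.H.map L).hom x) =
    (W.H.map L).hom ((W.H.map R).hom x)

variable {R : N ⟶ N}

theorem IsBlock.sq_idem (h : IsBlock W n L R) (z : W.H.obj (N ⊗ N)) :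
    (W.H.map (R ⊗ₘ R)).hom ((W.H.map (R ⊗ₘ R)).hom z) = (W.H.map (R ⊗ₘ R)).hom z := by
  induction z using W.cross_induction with
  | h1 i j x hx y hy => rw [W.map_tensorHom_cross, W.map_tensorHom_cross, h.idem, h.idem]
  | h2 x y hx hy => rw [map_add, map_add, hx, hy]

theorem IsBlock.sq_zero (h : IsBlock W n L R) (k : ℤ) (h1 : k ≠ 2 * n - 2) (h2 : k ≠ 2 * n)
    (h3 : k ≠ 2 * n + 2) (z : W.H.obj (N ⊗ N)) (hz : z ∈ W.gr (N ⊗ N) k) :
    (W.H.map (R ⊗ₘ R)).hom z = 0 := by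
  refine gr_tensor_induction (P := fun z => (W.H.map (R ⊗ₘ R)).hom z = 0) (map_zero _) ?_ ?_ z hz
  · intro x y hx hy
    rw [map_add, hx, hy, add_zero]
  · intro i j hij x hx y hy
    rw [W.map_tensorHom_cross]
    by_cases hi : i ≠ n - 1 ∧ i ≠ n + 1
    · rw [h.zero i hi.1 hi.2 x hx, W.cross_zero_left]
    · have hj : j ≠ n - 1 ∧ j ≠ n + 1 := by omega
      rw [h.zero j hj.1 hj.2 y hy, W.cross_zero_right]

theorem IsBlock.tw_idem (h : IsBlock W n L R) (z : W.H.obj ((N ⊗ N) ⊗ W.T 1)) :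
    (W.H.map ((R ⊗ₘ R) ▷ W.T 1)).hom ((W.H.map ((R ⊗ₘ R) ▷ W.T 1)).hom z) =
      (W.H.map ((R ⊗ₘ R) ▷ W.T 1)).hom z := by
  induction z using W.cross_induction with
  | h1 i j x hx y hy => rw [W.map_whiskerRight_cross, W.map_whiskerRight_cross, h.sq_idem]
  | h2 x y hx hy => rw [map_add, map_add, hx, hy]

theorem IsBlock.tw_zero (h : IsBlock W n L R) (k : ℤ) (h1 : k ≠ 2 * n) (h2 : k ≠ 2 * n + 2)
    (h3 : k ≠ 2 * n + 4) (z : W.H.obj ((N ⊗ N) ⊗ W.T 1)) (hz : z ∈ W.gr ((N ⊗ N) ⊗ W.T 1) k) :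
    (W.H.map ((R ⊗ₘ R) ▷ W.T 1)).hom z = 0 :=
  map_whisker_zero (R ⊗ₘ R) 1 k (h.sq_zero (k - 2 * 1) (by omega) (by omega) (by omega)) z hz

/-- `(R ▷ 1) L` on `H_(n-1)(N)` is zero -/
theorem IsBlock.low (h : IsBlock W n L R) (x : W.H.obj N) (hx : x ∈ W.gr N (n - 1)) :
    (W.H.map (R ▷ W.T 1)).hom ((W.H.map L).hom x) = 0 :=
  map_whisker_zero R 1 (n - 1) (h.zero (n - 1 - 2 * 1) (by omega) (by omega)) _
    (W.map_gr _ _ _ hx)

/-- on `H_(2n+2)(N ⊗ N)`: `π₁ Λ π = Λ π` -/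
theorem IsBlock.top (h : IsBlock W n L R) (z : W.H.obj (N ⊗ N))
    (hz : z ∈ W.gr (N ⊗ N) (2 * n + 2)) :
    (W.H.map ((R ⊗ₘ R) ▷ W.T 1)).hom ((W.H.map (squareL W L)).hom ((W.H.map (R ⊗ₘ R)).hom z)) =
      (W.H.map (squareL W L)).hom ((W.H.map (R ⊗ₘ R)).hom z) := by
  refine gr_tensor_induction (P := fun z => (W.H.map ((R ⊗ₘ R) ▷ W.T 1)).hom
    ((W.H.map (squareL W L)).hom ((W.H.map (R ⊗ₘ R)).hom z)) =
      (W.H.map (squareL W L)).hom ((W.H.map (R ⊗ₘ R)).hom z)) (by simp) ?_ ?_ z hz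
  · intro x y hx hy
    simp only [map_add, hx, hy]
  · intro i j hij x hx y hy
    rw [W.map_tensorHom_cross, squareL_proj_cross, squareL_cross, h.idem, h.idem]
    by_cases hi : i ≠ n - 1 ∧ i ≠ n + 1
    · rw [h.zero i hi.1 hi.2 x hx]
      simp [W.cross_zero_left]
    by_cases hj : j ≠ n - 1 ∧ j ≠ n + 1
    · rw [h.zero j hj.1 hj.2 y hy]
      simp [W.cross_zero_right]
    have hi' : i = n + 1 := by omega
    have hj' : j = n + 1 := by omega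
    subst hi'
    subst hj'
    rw [h.comm _ (W.map_gr _ _ _ hx), h.comm _ (W.map_gr _ _ _ hy), h.idem, h.idem]

/-- on `H_(2n)(N ⊗ N)`: `π₁ Λ π = π₁ Λ` -/
theorem IsBlock.mid (h : IsBlock W n L R) (z : W.H.obj (N ⊗ N))
    (hz : z ∈ W.gr (N ⊗ N) (2 * n)) :
    (W.H.map ((R ⊗ₘ R) ▷ W.T 1)).hom ((W.H.map (squareL W L)).hom ((W.H.map (R ⊗ₘ R)).hom z)) =
      (W.H.map ((R ⊗ₘ R) ▷ W.T 1)).hom ((W.H.map (squareL W L)).hom z) := by
  refine gr_tensor_induction (P := fun z => (W.H.map ((R ⊗ₘ R) ▷ W.T 1)).hom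
    ((W.H.map (squareL W L)).hom ((W.H.map (R ⊗ₘ R)).hom z)) =
      (W.H.map ((R ⊗ₘ R) ▷ W.T 1)).hom ((W.H.map (squareL W L)).hom z)) (by simp) ?_ ?_ z hz
  · intro x y hx hy
    simp only [map_add, hx, hy]
  · intro i j hij x hx y hy
    rw [W.map_tensorHom_cross, squareL_proj_cross, squareL_proj_cross, h.idem, h.idem]
    have key : ∀ i j, i + j = 2 * n → ∀ x ∈ W.gr N i, ∀ y ∈ W.gr N j,
        ((W.H.map (R ▷ W.T 1)).hom ((W.H.map L).hom ((W.H.map R).hom x)) =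
          (W.H.map (R ▷ W.T 1)).hom ((W.H.map L).hom x)) ∨ (W.H.map R).hom y = 0 := by
      intro i j hij x hx y hy
      by_cases hj : j ≠ n - 1 ∧ j ≠ n + 1
      · right
        exact h.zero j hj.1 hj.2 y hy
      left
      by_cases hi : i = n + 1
      · subst hi
        rw [h.comm _ (W.map_gr _ _ _ hx), h.comm _ hx, h.idem]
      · have hi' : i = n - 1 := by omega
        subst hi'
        rw [h.low _ (W.map_gr _ _ _ hx), h.low _ hx]
    congr 2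
    · rcases key i j hij x hx y hy with h1 | h1
      · rw [h1]
      · rw [h1, W.cross_zero_right, W.cross_zero_right]
    · rcases key j i (by omega) y hy x hx with h1 | h1
      · rw [h1]
      · rw [h1, W.cross_zero_left, W.cross_zero_left]

/-- The trace of `L' g'` is not zero. -/
theorem IsBlock.trace_ne_zero (h : IsBlock W n L R) (g : (N ⊗ N) ⊗ W.T 1 ⟶ N ⊗ N)
    (hg₁ : ∀ x ∈ W.gr (N ⊗ N) (2 * n + 2), (W.H.map (squareL W L ≫ g)).hom x = x)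
    (hg₂ : ∀ z ∈ W.gr ((N ⊗ N) ⊗ W.T 1) (2 * n), (W.H.map (g ≫ squareL W L)).hom z = z)
    (x : W.H.obj N) (hx : x ∈ W.gr N (n + 1)) (hRx : (W.H.map R).hom x = x) (hx0 : x ≠ 0) :
    LinearMap.trace F (W.H.obj (N ⊗ N))
      (W.H.map (squareL W L ≫ ((R ⊗ₘ R) ▷ W.T 1) ≫ g ≫ (R ⊗ₘ R))).hom ≠ 0 := by
  have hchar := charZero W
  have hfin : ∀ M, Module.Finite F (W.H.obj M) := W.finite
  set Λ : W.H.obj (N ⊗ N) →ₗ[F] W.H.obj ((N ⊗ N) ⊗ W.T 1) := (W.H.map (squareL W L)).hom with hΛ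
  set G : W.H.obj ((N ⊗ N) ⊗ W.T 1) →ₗ[F] W.H.obj (N ⊗ N) := (W.H.map g).hom with hG
  set p : W.H.obj (N ⊗ N) →ₗ[F] W.H.obj (N ⊗ N) := (W.H.map (R ⊗ₘ R)).hom with hp
  set p₁ : W.H.obj ((N ⊗ N) ⊗ W.T 1) →ₗ[F] W.H.obj ((N ⊗ N) ⊗ W.T 1) :=
    (W.H.map ((R ⊗ₘ R) ▷ W.T 1)).hom with hp₁
  have hΛgr : ∀ k, ∀ z ∈ W.gr (N ⊗ N) k, Λ z ∈ W.gr ((N ⊗ N) ⊗ W.T 1) k :=
    fun k z hz => W.map_gr _ _ _ hz
  have hGgr : ∀ k, ∀ z ∈ W.gr ((N ⊗ N) ⊗ W.T 1) k, G z ∈ W.gr (N ⊗ N) k :=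
    fun k z hz => W.map_gr _ _ _ hz
  have hpgr : ∀ k, ∀ z ∈ W.gr (N ⊗ N) k, p z ∈ W.gr (N ⊗ N) k :=
    fun k z hz => W.map_gr _ _ _ hz
  have hp₁gr : ∀ k, ∀ z ∈ W.gr ((N ⊗ N) ⊗ W.T 1) k, p₁ z ∈ W.gr ((N ⊗ N) ⊗ W.T 1) k :=
    fun k z hz => W.map_gr _ _ _ hz
  have hGΛ : ∀ z ∈ W.gr (N ⊗ N) (2 * n + 2), G (Λ z) = z := by
    intro z hz
    rw [hG, hΛ, ← W.map_comp_apply]
    exact hg₁ z hz
  have hΛG : ∀ z ∈ W.gr ((N ⊗ N) ⊗ W.T 1) (2 * n), Λ (G z) = z := by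
    intro z hz
    rw [hG, hΛ, ← W.map_comp_apply]
    exact hg₂ z hz
  let A : W.H.obj (N ⊗ N) →ₗ[F] W.H.obj (N ⊗ N) := grProj W (N ⊗ N) (2 * n + 2)
  let B : W.H.obj (N ⊗ N) →ₗ[F] W.H.obj (N ⊗ N) := grProj W (N ⊗ N) (2 * n)
  let Q : W.H.obj ((N ⊗ N) ⊗ W.T 1) →ₗ[F] W.H.obj ((N ⊗ N) ⊗ W.T 1) :=
    grProj W ((N ⊗ N) ⊗ W.T 1) (2 * n)
  have hA : ∀ k, ∀ z ∈ W.gr (N ⊗ N) k, A z = if k = 2 * n + 2 then z else 0 :=
    fun k z hz => grProj_of_mem _ k hz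
  have hB : ∀ k, ∀ z ∈ W.gr (N ⊗ N) k, B z = if k = 2 * n then z else 0 :=
    fun k z hz => grProj_of_mem _ k hz
  have hQ : ∀ k, ∀ z ∈ W.gr ((N ⊗ N) ⊗ W.T 1) k, Q z = if k = 2 * n then z else 0 :=
    fun k z hz => grProj_of_mem _ k hz
  -- the operator
  have hf : (W.H.map (squareL W L ≫ ((R ⊗ₘ R) ▷ W.T 1) ≫ g ≫ (R ⊗ₘ R))).hom =
      p ∘ₗ G ∘ₗ p₁ ∘ₗ Λ := by
    apply LinearMap.ext
    intro z
    rw [W.map_comp_apply, W.map_comp_apply, W.map_comp_apply]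
    rfl
  have hf2 : p ∘ₗ G ∘ₗ p₁ ∘ₗ Λ = (p ∘ₗ G ∘ₗ p₁ ∘ₗ Λ) ∘ₗ A + (p ∘ₗ G ∘ₗ p₁ ∘ₗ Λ) ∘ₗ B := by
    apply lin_ext
    intro k z hz
    simp only [LinearMap.comp_apply, LinearMap.add_apply]
    rw [hA k z hz, hB k z hz]
    by_cases h1 : k = 2 * n + 2
    · rw [if_pos h1, if_neg (by omega)]
      simp
    · by_cases h2 : k = 2 * n
      · rw [if_neg h1, if_pos h2]
        simp
      · rw [if_neg h1, if_neg h2]
        simp only [map_zero, add_zero]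
        by_cases h3 : k = 2 * n + 4
        · exact h.sq_zero k (by omega) (by omega) (by omega) _ (hGgr _ _ (hp₁gr _ _ (hΛgr _ _ hz)))
        · have h4 : p₁ (Λ z) = 0 := h.tw_zero k h2 h1 h3 _ (hΛgr _ _ hz)
          rw [h4, map_zero, map_zero]
  have ht1 : LinearMap.trace F _ ((p ∘ₗ G ∘ₗ p₁ ∘ₗ Λ) ∘ₗ A) = LinearMap.trace F _ (p ∘ₗ A) := by
    have h1 : (p ∘ₗ G ∘ₗ p₁ ∘ₗ Λ) ∘ₗ A = p ∘ₗ (G ∘ₗ p₁ ∘ₗ Λ ∘ₗ A) := by
      simp only [LinearMap.comp_assoc]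
    rw [h1, LinearMap.trace_comp_comm']
    congr 1
    apply lin_ext
    intro k z hz
    simp only [LinearMap.comp_apply]
    rw [hA k z hz, hA k (p z) (hpgr _ _ hz)]
    split_ifs with h2
    · subst h2
      have h3 : p₁ (Λ (p z)) = Λ (p z) := h.top z hz
      rw [h3, hGΛ _ (hpgr _ _ hz)]
    · simp
  have ht2 : LinearMap.trace F _ ((p ∘ₗ G ∘ₗ p₁ ∘ₗ Λ) ∘ₗ B) = LinearMap.trace F _ (p₁ ∘ₗ Q) := by
    have h1 : (p ∘ₗ G ∘ₗ p₁ ∘ₗ Λ) ∘ₗ B = (p ∘ₗ G) ∘ₗ (p₁ ∘ₗ Λ ∘ₗ B) := by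
      simp only [LinearMap.comp_assoc]
    rw [h1, LinearMap.trace_comp_comm']
    congr 1
    apply lin_ext
    intro k z hz
    simp only [LinearMap.comp_apply]
    rw [hB k _ (hpgr _ _ (hGgr _ _ hz)), hQ k z hz]
    split_ifs with h2
    · subst h2
      have h3 : p₁ (Λ (p (G z))) = p₁ (Λ (G z)) := h.mid _ (hGgr _ _ hz)
      rw [h3, hΛG z hz]
    · simp
  have hpA : (p ∘ₗ A) * (p ∘ₗ A) = p ∘ₗ A := by
    apply lin_ext
    intro k z hz
    simp only [Module.End.mul_apply, LinearMap.comp_apply]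
    rw [hA k z hz]
    split_ifs with h1
    · rw [hA k (p z) (hpgr _ _ hz), if_pos h1]
      exact h.sq_idem z
    · simp
  have hpQ : (p₁ ∘ₗ Q) * (p₁ ∘ₗ Q) = p₁ ∘ₗ Q := by
    apply lin_ext
    intro k z hz
    simp only [Module.End.mul_apply, LinearMap.comp_apply]
    rw [hQ k z hz]
    split_ifs with h1
    · rw [hQ k (p₁ z) (hp₁gr _ _ hz), if_pos h1]
      exact h.tw_idem z
    · simp
  have := hfin (N ⊗ N)
  have := hfin ((N ⊗ N) ⊗ W.T 1)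
  rw [hf, hf2, map_add, ht1, ht2, Pool.Agent.Helper29.CPB.trace_idem _ hpA,
    Pool.Agent.Helper29.CPB.trace_idem _ hpQ, ← Nat.cast_add]
  intro h0
  have h1 := Nat.cast_eq_zero.1 h0
  have h2 : Module.finrank F (LinearMap.range (p ∘ₗ A)) = 0 := by omega
  rw [Submodule.finrank_eq_zero, LinearMap.range_eq_bot] at h2
  have h3 : (p ∘ₗ A) (W.cross x x) = 0 := by rw [h2]; rfl
  rw [LinearMap.comp_apply, hA _ _ (W.cross_mem hx hx), if_pos (by ring), hp,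
    W.map_tensorHom_cross, hRx] at h3
  exact cross_ne_zero hx0 hx0 h3

end trace

end Pool.Agent.Helper90.MAD
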