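import Pool.Agent.Helper58.MAD.Defs

open CategoryTheory MonoidalCategory Limits TensorProduct
open Pool.Agent.Helper15.Murre

universe w v u

namespace Pool.Agent.Helper90.MAD

open Pool.Agent.Helper58.MAD

section one

variable {C : Type u} [Category.{v} C] [Preadditive C] [Linear ℚ C]
  [MonoidalCategory C] [SymmetricCategory C] [RigidCategory C] {F : Type w} [Field F]
  {W : MotivicHomology C F}

/-- `H_j(N(m)) = H_(j-2m)(N)(m)` -/
lemma tate_induction {N : C} {m j : ℤ} {P : W.H.obj (N ⊗ W.T m) → Prop} (h0 : P 0)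
    (h1 : ∀ x ∈ W.gr N (j - 2 * m), ∀ y : W.H.obj (W.T m), P (W.cross x y))
    (h2 : ∀ x y, P x → P y → P (x + y)) {z : W.H.obj (N ⊗ W.T m)}
    (hz : z ∈ W.gr (N ⊗ W.T m) j) : P z := by
  classical
  let U : ℤ → Submodule F (W.H.obj (N ⊗ W.T m)) := fun i =>
    Submodule.span F {t | ∃ x ∈ W.gr N (i - 2 * m), ∃ y : W.H.obj (W.T m), t = W.cross x y}
  have hUle : ∀ i, U i ≤ W.gr (N ⊗ W.T m) i := by
    intro i
    apply Submodule.span_le.2
    rintro _ ⟨x, hx, y, rfl⟩
    have := W.cross_mem hx (W.mem_gr_tate m y)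
    have h3 : i - 2 * m + 2 * m = i := by ring
    rw [h3] at this
    exact this
  have hUtop : ⨆ i, U i = ⊤ := by
    rw [eq_top_iff]
    rintro t -
    induction t using W.cross_induction with
    | h1 i k x hx y hy =>
      apply Submodule.mem_iSup_of_mem (i + 2 * m)
      apply Submodule.subset_span
      refine ⟨x, ?_, y, rfl⟩
      have h3 : i + 2 * m - 2 * m = i := by ring
      rw [h3]
      exact hx
    | h2 x y hx hy => exact Submodule.add_mem _ hx hy
  have hzU : z ∈ U j := by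
    have h3 : z ∈ U j ⊔ ⨆ (i) (_ : i ≠ j), U i := by
      have h4 : (⨆ i, U i) ≤ U j ⊔ ⨆ (i) (_ : i ≠ j), U i := by
        apply iSup_le
        intro i
        by_cases hi : i = j
        · subst hi
          exact le_sup_left
        · exact le_trans (le_iSup₂_of_le i hi le_rfl) le_sup_right
      apply h4
      rw [hUtop]
      trivial
    obtain ⟨a, ha, b, hb, hab⟩ := Submodule.mem_sup.1 h3
    have h5 : b ∈ W.gr (N ⊗ W.T m) j := by
      have : b = z - a := by rw [← hab]; abel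
      rw [this]
      exact Submodule.sub_mem _ hz (hUle j ha)
    have h6 : b ∈ ⨆ (i) (_ : i ≠ j), W.gr (N ⊗ W.T m) i := by
      have h7 : (⨆ (i) (_ : i ≠ j), U i) ≤ ⨆ (i) (_ : i ≠ j), W.gr (N ⊗ W.T m) i :=
        iSup₂_mono fun i _ => hUle i
      exact h7 hb
    have h8 := (W.isInternal (N ⊗ W.T m)).submodule_iSupIndep j
    have h9 : b = 0 := (Submodule.disjoint_def.1 h8) b h5 h6
    rw [h9, add_zero] at hab
    rw [← hab]
    exact ha
  have key : ∀ t ∈ U j, ∀ c : F, P (c • t) := by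
    intro t ht
    induction ht using Submodule.span_induction with
    | mem t ht =>
      intro c
      obtain ⟨x, hx, y, rfl⟩ := ht
      rw [← W.cross_smul_left]
      exact h1 _ (Submodule.smul_mem _ _ hx) y
    | zero => intro c; rw [smul_zero]; exact h0
    | add x y _ _ hx hy => intro c; rw [smul_add]; exact h2 _ _ (hx c) (hy c)
    | smul d x _ hx => intro c; rw [smul_smul]; exact hx (c * d)
  have := key z hzU 1
  rwa [one_smul] at this

lemma tw_zero {M N : C} (f : M ⟶ N) {m j : ℤ}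
    (h : ∀ x ∈ W.gr M (j - 2 * m), (W.H.map f).hom x = 0) :
    ∀ z ∈ W.gr (M ⊗ W.T m) j, (W.H.map (f ▷ W.T m)).hom z = 0 := by
  intro z hz
  refine tate_induction (P := fun z => (W.H.map (f ▷ W.T m)).hom z = 0) ?_ ?_ ?_ hz
  · simp
  · intro x hx y
    rw [W.map_whiskerRight_cross, h x hx, W.cross_zero_left]
  · intro x y hx hy
    rw [map_add, hx, hy, add_zero]

lemma tw_id {M : C} (f : M ⟶ M) {m j : ℤ}
    (h : ∀ x ∈ W.gr M (j - 2 * m), (W.H.map f).hom x = x) :
    ∀ z ∈ W.gr (M ⊗ W.T m) j, (W.H.map (f ▷ W.T m)).hom z = z := by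
  intro z hz
  refine tate_induction (P := fun z => (W.H.map (f ▷ W.T m)).hom z = z) ?_ ?_ ?_ hz
  · simp
  · intro x hx y
    rw [W.map_whiskerRight_cross, h x hx]
  · intro x y hx hy
    rw [map_add, hx, hy]

lemma nil_kill (h : NilHom W) {A N : C} (x : A ⟶ N) (E : N ⟶ N) (hE : W.H.map E = 0)
    (hx : x ≫ E = x) : x = 0 := by
  obtain ⟨m, hm⟩ := h N E hE
  have key : ∀ m : ℕ, x ≫ pw E m = x := by
    intro m
    induction m with
    | zero => simp [pw]
    | succ m ih => rw [pw, ← Category.assoc, ih, hx]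
  rw [← key m, hm, comp_zero]

lemma pw_id {N : C} (u : N ⟶ N) {j : ℤ} (h : ∀ x ∈ W.gr N j, (W.H.map u).hom x = x) (m : ℕ) :
    ∀ x ∈ W.gr N j, (W.H.map (pw u m)).hom x = x := by
  intro x hx
  induction m with
  | zero => exact W.map_id_apply x
  | succ m ih => rw [pw, W.map_comp_apply, ih, h x hx]

/-- `x (1 - u)` in homology -/
lemma map_one_sub {N : C} (u : N ⟶ N) (x : W.H.obj N) :
    (W.H.map (𝟙 N - u)).hom x = x - (W.H.map u).hom x := by
  rw [W.map_sub_apply, W.map_id_apply]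

omit [Linear ℚ C] [MonoidalCategory C] [SymmetricCategory C] [RigidCategory C] in
lemma one_sub_idem {N : C} {w : N ⟶ N} (h : w ≫ w = w) :
    (𝟙 N - w) ≫ (𝟙 N - w) = 𝟙 N - w := by
  rw [Preadditive.comp_sub, Category.comp_id, Preadditive.sub_comp, Category.id_comp, h, sub_self,
    sub_zero]

end one

section two

variable {C : Type u} [Category.{v} C] [Preadditive C] [Linear ℚ C]
  [MonoidalCategory C] [SymmetricCategory C] [RigidCategory C] {F : Type w} [Field F]
  {C' : Type u} [Category.{v} C'] [Preadditive C'] [Linear ℚ C']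
  [MonoidalCategory C'] [SymmetricCategory C'] [RigidCategory C']
  {W : MotivicHomology C F} {W' : MotivicHomology C' F} {Φ : C ⥤ C'}

lemma bc_eq (B : BaseChange W W' Φ) {M N : C} {f g : M ⟶ N} {j : ℤ}
    (h : ∀ x ∈ W.gr M j, (W.H.map f).hom x = (W.H.map g).hom x) :
    ∀ x ∈ W'.gr (Φ.obj M) j, (W'.H.map (Φ.map f)).hom x = (W'.H.map (Φ.map g)).hom x := by
  intro x hx
  obtain ⟨y, rfl⟩ : ∃ y : W.H.obj M, (B.comparison.hom.app M).hom y = x := by
    refine ⟨(B.comparison.inv.app M).hom x, ?_⟩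
    have := congrArg (fun t => t.hom x) (B.comparison.inv_hom_id_app M)
    exact this
  have hy : y ∈ W.gr M j := (B.comparison_gr M j y).2 hx
  have h1 : ∀ f : M ⟶ N, (W'.H.map (Φ.map f)).hom ((B.comparison.hom.app M).hom y)
      = (B.comparison.hom.app N).hom ((W.H.map f).hom y) := by
    intro f
    have := congrArg (fun t => t.hom y) (B.comparison.hom.naturality f)
    exact this.symm
  rw [h1, h1, h y hy]

lemma bc_zero (B : BaseChange W W' Φ) {M N : C} {f : M ⟶ N} {j : ℤ}
    (h : ∀ x ∈ W.gr M j, (W.H.map f).hom x = 0) :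
    ∀ x ∈ W'.gr (Φ.obj M) j, (W'.H.map (Φ.map f)).hom x = 0 := by
  intro x hx
  have := B.additive
  have h1 := bc_eq B (f := f) (g := 0) (fun y hy => by rw [h y hy, W.map_zero_apply]) x hx
  rw [h1, Φ.map_zero, W'.map_zero_apply]

lemma bc_id (B : BaseChange W W' Φ) {M : C} {f : M ⟶ M} {j : ℤ}
    (h : ∀ x ∈ W.gr M j, (W.H.map f).hom x = x) :
    ∀ x ∈ W'.gr (Φ.obj M) j, (W'.H.map (Φ.map f)).hom x = x := by
  intro x hx
  have h1 := bc_eq B (f := f) (g := 𝟙 M) (fun y hy => by rw [h y hy, W.map_id_apply]) x hx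
  rw [h1, CategoryTheory.Functor.map_id, W'.map_id_apply]

lemma bc_hom (B : BaseChange W W' Φ) {M N : C} {f : M ⟶ N} (h : W.H.map f = 0) :
    W'.H.map (Φ.map f) = 0 := by
  apply W'.hext
  intro j x hx
  rw [bc_zero B (j := j) (fun y _ => by rw [h]; rfl) x hx]
  rfl

omit [Preadditive C] [Linear ℚ C] [MonoidalCategory C] [SymmetricCategory C] [RigidCategory C]
  [Preadditive C'] [Linear ℚ C'] [MonoidalCategory C'] [SymmetricCategory C']
  [RigidCategory C'] in
lemma map_pw (Φ : C ⥤ C') {N : C} (u : N ⟶ N) (m : ℕ) : Φ.map (pw u m) = pw (Φ.map u) m := by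
  induction m with
  | zero => exact Φ.map_id N
  | succ m ih => rw [pw, Φ.map_comp, ih]; rfl

end two

end Pool.Agent.Helper90.MAD
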