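import Pool.Agent.Helper90.MAD.TraceD

/-!
The untwist of an endomorphism of `N(1)` and the complementary block.
-/

open CategoryTheory MonoidalCategory Limits TensorProduct
open Pool.Agent.Helper15.Murre

universe w v u

set_option linter.unusedSectionVars false

namespace Pool.Agent.Helper90.MAD

open Pool.Agent.Helper58.MAD

variable {C : Type u} [Category.{v} C] [Preadditive C] [Linear ℚ C]
  [MonoidalCategory C] [SymmetricCategory C] [MonoidalPreadditive C] [MonoidalLinear ℚ C]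
  [RigidCategory C] {F : Type w} [Field F] {W : MotivicHomology C F}

theorem exists_tate_gen (W : MotivicHomology C F) (m : ℤ) :
    ∃ t : W.H.obj (W.T m), t ≠ 0 ∧ ∀ y, ∃ c : F, y = c • t := by
  obtain ⟨t, ht, h⟩ := finrank_eq_one_iff'.1 (W.tateRank m)
  exact ⟨t, ht, fun y => by obtain ⟨c, hc⟩ := h y; exact ⟨c, hc.symm⟩⟩

/-- every element of `H(N(m))` is `x × t` -/
theorem exists_cross_tate {N : C} {m : ℤ} {t : W.H.obj (W.T m)} (ht : ∀ y, ∃ c : F, y = c • t)
    (z : W.H.obj (N ⊗ W.T m)) : ∃ x : W.H.obj N, z = W.cross x t := by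
  induction z using W.cross_induction with
  | h1 i j x hx y hy =>
    obtain ⟨c, rfl⟩ := ht y
    exact ⟨c • x, by rw [W.cross_smul_right, W.cross_smul_left]⟩
  | h2 x y hx hy =>
    obtain ⟨a, rfl⟩ := hx
    obtain ⟨b, rfl⟩ := hy
    exact ⟨a + b, by rw [W.cross_add_left]⟩

/-- the untwist of an endomorphism of `N(1)` -/
noncomputable def unt {N : C} (f : N ⊗ W.T 1 ⟶ N ⊗ W.T 1) : N ⟶ N :=
  (untwist W N 1).inv ≫ (f ▷ W.T (-1)) ≫ (untwist W N 1).hom

theorem unt_map {N : C} (f : N ⊗ W.T 1 ⟶ N ⊗ W.T 1) (z : W.H.obj (N ⊗ W.T 1)) :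
    (W.H.map (unt f ▷ W.T 1)).hom z = (W.H.map f).hom z := by
  obtain ⟨t, ht0, ht⟩ := exists_tate_gen W 1
  obtain ⟨s, hs0, hs⟩ := exists_tate_gen W (-1)
  obtain ⟨x, rfl⟩ := exists_cross_tate ht z
  obtain ⟨y, hy⟩ := exists_cross_tate ht ((W.H.map f).hom (W.cross x t))
  -- the coordinate of the unit
  obtain ⟨c, hc⟩ : ∃ c : F, ∀ x : W.H.obj N,
      (W.H.map (untwist W N 1).hom).hom (W.cross (W.cross x t) s) = c • x := by
    have h1 : ∃ c : F, (W.H.map (W.tateInv 1).hom).hom (W.cross t s) = c • W.unit := by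
      have h2 : ∀ y : W.H.obj (𝟙_ C), ∃ c : F, y = c • W.unit := by
        intro y
        have h3 := W.cross_unit' (X := 𝟙_ C) y
        let _ := W.monoidal
        refine ⟨(Functor.OplaxMonoidal.η W.H).hom y, ?_⟩
        have h4 := congrArg (fun t => t.hom y) (Functor.Monoidal.η_ε W.H)
        have h5 : (Functor.LaxMonoidal.ε W.H).hom ((Functor.OplaxMonoidal.η W.H).hom y) = y := h4
        conv_lhs => rw [← h5]
        unfold MotivicHomology.unit
        rw [← map_smul]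
        congr 1
        exact (mul_one _).symm
      exact h2 _
    obtain ⟨c, hc⟩ := h1
    refine ⟨c, fun x => ?_⟩
    have h2 : (untwist W N 1).hom = (α_ N (W.T 1) (W.T (-1))).hom ≫
        (N ◁ (W.tateInv 1).hom) ≫ (ρ_ N).hom := by
      simp [untwist]
    rw [h2, W.map_comp_apply, W.map_comp_apply, W.cross_assoc, W.map_whiskerLeft_cross, hc,
      W.cross_smul_right, map_smul, W.cross_unit]
  have hc0 : c ≠ 0 ∨ Subsingleton (W.H.obj N) := by
    by_cases h : c = 0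
    · right
      refine ⟨fun a b => ?_⟩
      have h1 : ∀ a : W.H.obj N, a = 0 := by
        intro a
        have h2 := hc a
        rw [h, zero_smul] at h2
        have h3 := congrArg (fun q => (W.H.map (untwist W N 1).inv).hom q) h2
        simp only [map_zero] at h3
        rw [← W.map_comp_apply, Iso.hom_inv_id, W.map_id_apply] at h3
        by_contra ha
        exact cross_ne_zero (cross_ne_zero ha ht0) hs0 h3
      rw [h1 a, h1 b]
    · exact Or.inl h
  rcases hc0 with hc0 | hsub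
  · have h1 : (W.H.map (untwist W N 1).inv).hom x = W.cross (W.cross (c⁻¹ • x) t) s := by
      have h2 := hc (c⁻¹ • x)
      rw [smul_smul, mul_inv_cancel₀ hc0, one_smul] at h2
      conv_lhs => rw [← h2]
      rw [← W.map_comp_apply, Iso.hom_inv_id, W.map_id_apply]
    have h2 : (W.H.map (unt f)).hom x = y := by
      unfold unt
      rw [W.map_comp_apply, W.map_comp_apply, h1, W.map_whiskerRight_cross, W.cross_smul_left,
        map_smul, hy, ← W.cross_smul_left, hc, smul_smul, mul_inv_cancel₀ hc0, one_smul]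
    rw [W.map_whiskerRight_cross, h2, hy]
  · have h1 : x = 0 := Subsingleton.elim _ _
    rw [h1, W.cross_zero_left, map_zero, map_zero]

/-- the action of `unt f` on `H_j(N)` from the action of `f` on `H_(j+2)(N(1))` -/
theorem unt_eq {N : C} (f : N ⊗ W.T 1 ⟶ N ⊗ W.T 1) (x y : W.H.obj N)
    (t : W.H.obj (W.T 1)) (ht : t ≠ 0)
    (h : (W.H.map f).hom (W.cross x t) = W.cross y t) : (W.H.map (unt f)).hom x = y := by
  have h1 := unt_map f (W.cross x t)
  rw [W.map_whiskerRight_cross, h] at h1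
  by_contra h2
  have h3 : W.cross ((W.H.map (unt f)).hom x - y) t = 0 := by
    rw [sub_eq_add_neg, W.cross_add_left, h1, ← W.cross_add_left, add_neg_cancel,
      W.cross_zero_left]
  exact cross_ne_zero (sub_ne_zero.2 h2) ht h3

variable {N : C} {n : ℤ} {L : N ⟶ N ⊗ W.T 1}

/-- The complement of the block of an idempotent `E = L φ`, where `φ = (R ▷ 1) θ R`. -/
theorem isBlock_compl
    (hsurj : ∀ z ∈ W.gr (N ⊗ W.T 1) (n + 1), ∃ y ∈ W.gr N (n + 1), (W.H.map L).hom y = z)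
    (R : N ⟶ N)
    (hR : ∀ j, ∀ x ∈ W.gr N j, (W.H.map R).hom x = if j = n + 1 ∨ j = n - 1 then x else 0)
    (φ : N ⊗ W.T 1 ⟶ N)
    (hφ : ∀ j, j ≠ n + 1 → ∀ z ∈ W.gr (N ⊗ W.T 1) j, (W.H.map φ).hom z = 0)
    (hE : ∀ x, (W.H.map (L ≫ φ)).hom ((W.H.map (L ≫ φ)).hom x) = (W.H.map (L ≫ φ)).hom x) :
    IsBlock W n L (R - L ≫ φ - unt (φ ≫ L)) := by
  obtain ⟨t, ht0, ht⟩ := exists_tate_gen W 1
  have hEz : ∀ j, j ≠ n + 1 → ∀ x ∈ W.gr N j, (W.H.map (L ≫ φ)).hom x = 0 := by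
    intro j hj x hx
    rw [W.map_comp_apply, hφ j hj _ (W.map_gr _ _ _ hx)]
  -- the action of `E' = unt (φ L)`
  have hE' : ∀ j, j ≠ n - 1 → ∀ x ∈ W.gr N j, (W.H.map (unt (φ ≫ L))).hom x = 0 := by
    intro j hj x hx
    apply unt_eq _ _ _ t ht0
    rw [W.cross_zero_left, W.map_comp_apply, hφ (j + 2 * 1) (by omega) _
      (W.cross_mem hx (W.mem_gr_tate 1 t)), map_zero]
  have hE'2 : ∀ x ∈ W.gr N (n - 1), (W.H.map (unt (φ ≫ L))).hom
      ((W.H.map (unt (φ ≫ L))).hom x) = (W.H.map (unt (φ ≫ L))).hom x := by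
    intro x hx
    obtain ⟨y, hy⟩ := exists_cross_tate ht ((W.H.map (φ ≫ L)).hom (W.cross x t))
    have h1 : (W.H.map (unt (φ ≫ L))).hom x = y := unt_eq _ _ _ t ht0 hy
    rw [h1]
    apply unt_eq _ _ _ t ht0
    have hxt : W.cross x t ∈ W.gr (N ⊗ W.T 1) (n + 1) := by
      have := W.cross_mem hx (W.mem_gr_tate 1 t)
      have h2 : n - 1 + 2 * 1 = n + 1 := by ring
      rwa [h2] at this
    obtain ⟨w, hw, hw2⟩ := hsurj _ hxt
    rw [← hy, ← hw2]
    have h3 : (W.H.map (φ ≫ L)).hom ((W.H.map L).hom w) =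
        (W.H.map L).hom ((W.H.map (L ≫ φ)).hom w) := by
      rw [W.map_comp_apply, W.map_comp_apply]
    rw [h3, W.map_comp_apply φ L, ← W.map_comp_apply L φ, hE]
  have hform : ∀ x, (W.H.map (R - L ≫ φ - unt (φ ≫ L))).hom x =
      (W.H.map R).hom x - (W.H.map (L ≫ φ)).hom x - (W.H.map (unt (φ ≫ L))).hom x := by
    intro x
    rw [W.map_sub_apply, W.map_sub_apply]
  have hgr : ∀ j, ∀ x ∈ W.gr N j, (W.H.map (R - L ≫ φ - unt (φ ≫ L))).hom x ∈ W.gr N j :=
    fun j x hx => W.map_gr _ _ _ hx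
  have hval1 : ∀ x ∈ W.gr N (n + 1), (W.H.map (R - L ≫ φ - unt (φ ≫ L))).hom x =
      x - (W.H.map (L ≫ φ)).hom x := by
    intro x hx
    rw [hform, hE' (n + 1) (by omega) x hx, hR (n + 1) x hx, if_pos (Or.inl rfl), sub_zero]
  have hval2 : ∀ x ∈ W.gr N (n - 1), (W.H.map (R - L ≫ φ - unt (φ ≫ L))).hom x =
      x - (W.H.map (unt (φ ≫ L))).hom x := by
    intro x hx
    rw [hform, hEz (n - 1) (by omega) x hx, hR (n - 1) x hx, if_pos (Or.inr rfl), sub_zero]
  have hval3 : ∀ j, j ≠ n - 1 → j ≠ n + 1 → ∀ x ∈ W.gr N j,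
      (W.H.map (R - L ≫ φ - unt (φ ≫ L))).hom x = 0 := by
    intro j h1 h2 x hx
    rw [hform, hE' j h1 x hx, hEz j h2 x hx, hR j x hx, if_neg (by omega), sub_zero, sub_zero]
  refine ⟨?_, hval3, ?_⟩
  · intro x
    induction x using W.induction with
    | h1 j x hx =>
      by_cases h1 : j = n + 1
      · subst h1
        have h2 : (W.H.map (L ≫ φ)).hom x ∈ W.gr N (n + 1) := W.map_gr _ _ _ hx
        rw [hval1 x hx, hval1 _ (Submodule.sub_mem _ hx h2), map_sub, hE, sub_self, sub_zero]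
      · by_cases h2 : j = n - 1
        · subst h2
          have h3 : (W.H.map (unt (φ ≫ L))).hom x ∈ W.gr N (n - 1) := W.map_gr _ _ _ hx
          rw [hval2 x hx, hval2 _ (Submodule.sub_mem _ hx h3), map_sub, hE'2 x hx, sub_self,
            sub_zero]
        · rw [hval3 j h2 h1 x hx, map_zero]
    | h2 x y hx hy => rw [map_add, map_add, hx, hy]
  · intro x hx
    have hLx : (W.H.map L).hom x ∈ W.gr (N ⊗ W.T 1) (n + 1) := W.map_gr _ _ _ hx
    obtain ⟨y, hy⟩ := exists_cross_tate ht ((W.H.map L).hom x)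
    have h1 : (W.H.map ((R - L ≫ φ - unt (φ ≫ L)) ▷ W.T 1)).hom ((W.H.map L).hom x) =
        (W.H.map (R ▷ W.T 1)).hom ((W.H.map L).hom x) -
        (W.H.map ((L ≫ φ) ▷ W.T 1)).hom ((W.H.map L).hom x) -
        (W.H.map (unt (φ ≫ L) ▷ W.T 1)).hom ((W.H.map L).hom x) := by
      rw [hy, W.map_whiskerRight_cross, W.map_whiskerRight_cross, W.map_whiskerRight_cross,
        W.map_whiskerRight_cross, hform, sub_eq_add_neg, sub_eq_add_neg, sub_eq_add_neg,
        sub_eq_add_neg, W.cross_add_left, W.cross_add_left, ← neg_one_smul F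
          ((W.H.map (L ≫ φ)).hom y), ← neg_one_smul F ((W.H.map (unt (φ ≫ L))).hom y),
        W.cross_smul_left, W.cross_smul_left, neg_one_smul, neg_one_smul]
    have h2 : (W.H.map (R ▷ W.T 1)).hom ((W.H.map L).hom x) = (W.H.map L).hom x :=
      map_whisker_one R 1 (n + 1) (fun y hy => by
        rw [hR _ y hy, if_pos (by omega)]) _ hLx
    have h3 : (W.H.map ((L ≫ φ) ▷ W.T 1)).hom ((W.H.map L).hom x) = 0 :=
      map_whisker_zero (L ≫ φ) 1 (n + 1) (hEz _ (by omega)) _ hLx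
    rw [h1, h2, h3, unt_map, hval1 x hx, map_sub, sub_zero, W.map_comp_apply φ L,
      ← W.map_comp_apply L φ]

/-- if `E = L φ` is not the projector onto `H_(n+1)`, then its complementary block is not zero -/
theorem exists_compl (R : N ⟶ N)
    (hR : ∀ j, ∀ x ∈ W.gr N j, (W.H.map R).hom x = if j = n + 1 ∨ j = n - 1 then x else 0)
    (φ : N ⊗ W.T 1 ⟶ N)
    (hφ : ∀ j, j ≠ n + 1 → ∀ z ∈ W.gr (N ⊗ W.T 1) j, (W.H.map φ).hom z = 0)
    (hE : ∀ x, (W.H.map (L ≫ φ)).hom ((W.H.map (L ≫ φ)).hom x) = (W.H.map (L ≫ φ)).hom x)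
    (hne : (W.H.map (L ≫ φ)).hom ≠ grProj W N (n + 1)) :
    ∃ x ∈ W.gr N (n + 1), (W.H.map (R - L ≫ φ - unt (φ ≫ L))).hom x = x ∧ x ≠ 0 := by
  obtain ⟨t, ht0, ht⟩ := exists_tate_gen W 1
  have hEz : ∀ j, j ≠ n + 1 → ∀ x ∈ W.gr N j, (W.H.map (L ≫ φ)).hom x = 0 := by
    intro j hj x hx
    rw [W.map_comp_apply, hφ j hj _ (W.map_gr _ _ _ hx)]
  have hE' : ∀ j, j ≠ n - 1 → ∀ x ∈ W.gr N j, (W.H.map (unt (φ ≫ L))).hom x = 0 := by
    intro j hj x hx
    apply unt_eq _ _ _ t ht0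
    rw [W.cross_zero_left, W.map_comp_apply, hφ (j + 2 * 1) (by omega) _
      (W.cross_mem hx (W.mem_gr_tate 1 t)), map_zero]
  obtain ⟨x, hx, hxE⟩ : ∃ x ∈ W.gr N (n + 1), (W.H.map (L ≫ φ)).hom x ≠ x := by
    by_contra h
    push Not at h
    apply hne
    apply lin_ext
    intro j x hx
    rw [grProj_of_mem (n + 1) j hx]
    split_ifs with hj
    · subst hj; exact h x hx
    · exact hEz j hj x hx
  refine ⟨x - (W.H.map (L ≫ φ)).hom x, Submodule.sub_mem _ hx (W.map_gr _ _ _ hx), ?_,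
    sub_ne_zero.2 (Ne.symm hxE)⟩
  have hy : x - (W.H.map (L ≫ φ)).hom x ∈ W.gr N (n + 1) :=
    Submodule.sub_mem _ hx (W.map_gr _ _ _ hx)
  rw [W.map_sub_apply, W.map_sub_apply, hE' (n + 1) (by omega) _ hy, hR (n + 1) _ hy,
    if_pos (Or.inl rfl), map_sub, hE, sub_self, sub_zero, sub_zero]

end Pool.Agent.Helper90.MAD
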